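import Pool.Agent.Helper51.SDL.Goals
import Pool.Agent.Helper51.REC.Asm
import Pool.Agent.Helper13.REC.Quo

/-!
# MP_fc6b1e_nt, project SD, packet SDL-HQC: modules over the ring of integers of the `p^i`-th cyclotomic field
-/

set_option autoImplicit false

namespace Pool.Agent.Helper23.SDL.HQC

open Module Polynomial Pool.Agent.Helper51.REC Pool.Agent.Helper13.REC

/-- The polynomial `∏_{j ∈ S} (1 - X^j)`. -/
noncomputable def PS (S : Finset ℕ) : ℤ[X] := ∏ j ∈ S, (1 - X ^ j)

/-- The exponents prime to `n`. -/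
def cp (n : ℕ) : Finset ℕ := (Finset.range n).filter n.Coprime

theorem card_cp (n : ℕ) : (cp n).card = n.totient := rfl

theorem prod_root {n : ℕ} (hn : 0 < n) {ζ : ℂ} (h : IsPrimitiveRoot ζ n) :
    ∏ j ∈ cp n, (1 - ζ ^ j) = ∏ μ ∈ primitiveRoots n ℂ, (1 - μ) := by
  symm
  refine Eq.symm (Finset.prod_bij (fun j _ => ζ ^ j) ?_ ?_ ?_ ?_)
  · intro j hj
    rw [cp, Finset.mem_filter, Finset.mem_range] at hj
    rw [mem_primitiveRoots hn]
    exact h.pow_of_coprime j hj.2.symm
  · intro a ha b hb hab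
    rw [cp, Finset.mem_filter, Finset.mem_range] at ha hb
    exact h.pow_inj ha.1 hb.1 hab
  · intro μ hμ
    rw [mem_primitiveRoots hn] at hμ
    have : NeZero n := ⟨hn.ne'⟩
    obtain ⟨j, hj1, hj2, hj3⟩ := h.isPrimitiveRoot_iff.1 hμ
    refine ⟨j, ?_, hj3⟩
    rw [cp, Finset.mem_filter, Finset.mem_range]
    exact ⟨hj1, hj2.symm⟩
  · intro j _
    rfl

theorem PS_dvd (p : ℕ) [hp : Fact p.Prime] (i : ℕ) :
    (∑ j ∈ Finset.range p, (X : ℤ[X]) ^ (j * p ^ i)) ∣ PS (cp (p ^ (i + 1))) - (p : ℤ[X]) := by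
  have hpos : 0 < p ^ (i + 1) := pow_pos hp.out.pos _
  have hprim := Complex.isPrimitiveRoot_exp (p ^ (i + 1)) hpos.ne'
  have e1 : (∑ j ∈ Finset.range p, (X : ℤ[X]) ^ (j * p ^ i)) = cyclotomic (p ^ (i + 1)) ℤ := by
    rw [cyclotomic_prime_pow_eq_geom_sum hp.out]
    refine Finset.sum_congr rfl fun j _ => ?_
    rw [← pow_mul, mul_comm]
  rw [e1, cyclotomic_eq_minpoly hprim hpos]
  apply minpoly.isIntegrallyClosed_dvd (hprim.isIntegral hpos)
  rw [map_sub, PS, map_prod]
  simp only [map_sub, map_one, map_pow, aeval_X, map_natCast]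
  rw [prod_root hpos hprim]
  have h1 := eval_one_cyclotomic_prime_pow (R := ℂ) (p := p) i
  rw [cyclotomic_eq_prod_X_sub_primitiveRoots hprim, eval_prod] at h1
  simp only [eval_sub, eval_X, eval_C] at h1
  rw [h1, sub_self]

/-- `1 - s^k` and `1 - s` have the same kernel and image if `k` is prime to the order of `s`. -/
theorem same {B : Type} [CommGroup B] (s : AddMonoid.End (Additive B)) {n : ℕ} (hn : 1 < n)
    (hs : s ^ n = 1) {k : ℕ} (hc : Nat.Coprime k n) :
    (T (1 - s ^ k)).range = (T (1 - s)).range ∧ (T (1 - s ^ k)).ker = (T (1 - s)).ker := by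
  have e1 : (1 - s ^ k) = (1 - s) * (∑ i ∈ Finset.range k, s ^ i) :=
    (mul_neg_geom_sum s k).symm
  have e2 : (1 - s ^ k) = (∑ i ∈ Finset.range k, s ^ i) * (1 - s) :=
    (geom_sum_mul_neg s k).symm
  obtain ⟨j, hj⟩ : ∃ j : ℕ, s ^ (k * j) = s := by
    obtain ⟨j, _, hj⟩ := Nat.exists_mul_mod_eq_one_of_coprime hc hn
    refine ⟨j, ?_⟩
    rw [pow_eq_pow_mod (k * j) hs, hj, pow_one]
  have e3 : (1 - s) = (1 - s ^ k) * (∑ i ∈ Finset.range j, (s ^ k) ^ i) := by
    rw [mul_neg_geom_sum, ← pow_mul, hj]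
  have e4 : (1 - s) = (∑ i ∈ Finset.range j, (s ^ k) ^ i) * (1 - s ^ k) := by
    rw [geom_sum_mul_neg, ← pow_mul, hj]
  exact ⟨le_antisymm (range_le e1) (range_le e3), le_antisymm (ker_le e4) (ker_le e2)⟩

theorem ind (h1 : H_IDX) {B : Type} [CommGroup B] (s : AddMonoid.End (Additive B)) {n : ℕ}
    (hn : 1 < n) (hs : s ^ n = 1) (hg : Good (1 - s)) (S : Finset ℕ)
    (hS : ∀ j ∈ S, Nat.Coprime j n) : Good (aeval s (PS S)) ∧
      (T (aeval s (PS S))).range.index * Nat.card (T (1 - s)).ker ^ S.card =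
        (T (1 - s)).range.index ^ S.card * Nat.card (T (aeval s (PS S))).ker := by
  classical
  induction S using Finset.induction_on with
  | empty =>
    have h0 : aeval s (PS ∅) = 1 := by simp [PS]
    have hT : T (1 : AddMonoid.End (Additive B)) = MonoidHom.id B := rfl
    have hr : (MonoidHom.id B).range = ⊤ := MonoidHom.range_eq_top.2 (fun x => ⟨x, rfl⟩)
    have hk : (MonoidHom.id B).ker = ⊥ := by
      ext x
      rfl
    rw [h0, Good, hT, hr, hk]
    refine ⟨⟨by simp, inferInstance⟩, by simp⟩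
  | insert a S ha ih =>
    obtain ⟨ih1, ih2⟩ := ih fun j hj => hS j (Finset.mem_insert_of_mem hj)
    obtain ⟨s1, s2⟩ := same s hn hs (hS a (Finset.mem_insert_self a S))
    have hg' : Good (1 - s ^ a) := by
      rw [Good, s1, s2]
      exact hg
    have hPS : aeval s (PS (insert a S)) = aeval s (PS S) * (1 - s ^ a) := by
      rw [PS, Finset.prod_insert ha, mul_comm, map_mul]
      congr 1
      simp
    obtain ⟨i1, i2, i3⟩ := h1 B (T (aeval s (PS S))) (T (1 - s ^ a)) ih1.1 hg'.1 ih1.2 hg'.2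
    rw [← T_mul, ← hPS] at i1 i2 i3
    refine ⟨⟨i1, i2⟩, ?_⟩
    rw [s1, s2] at i3
    have hpos : 0 < Nat.card (T (aeval s (PS S))).ker := by
      have := ih1.2
      exact Nat.card_pos
    rw [Finset.card_insert_of_notMem ha]
    apply Nat.eq_of_mul_eq_mul_left hpos
    calc Nat.card (T (aeval s (PS S))).ker * ((T (aeval s (PS (insert a S)))).range.index *
          Nat.card (T (1 - s)).ker ^ (S.card + 1))
        = ((T (aeval s (PS (insert a S)))).range.index * (Nat.card (T (aeval s (PS S))).ker *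
          Nat.card (T (1 - s)).ker)) * Nat.card (T (1 - s)).ker ^ S.card := by ring
      _ = ((T (aeval s (PS S))).range.index * Nat.card (T (1 - s)).ker ^ S.card) *
          ((T (1 - s)).range.index * Nat.card (T (aeval s (PS (insert a S)))).ker) := by
        rw [i3]
        ring
      _ = _ := by
        rw [ih2]
        ring

theorem quo (h1 : H_IDX) {B : Type} [CommGroup B] [Module.Finite ℤ (Additive B)]
    (s : AddMonoid.End (Additive B)) {p : ℕ} [hp : Fact p.Prime] (i : ℕ)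
    (hsn : s ^ p ^ (i + 1) = 1) (hs : ∑ j ∈ Finset.range p, s ^ (j * p ^ i) = 0) :
    (T (1 - s)).range.index ≠ 0 ∧ Finite (T (1 - s)).ker ∧
    (T (1 - s)).range.index ^ (p ^ i * (p - 1)) =
      p ^ finrank ℤ (Additive B) * Nat.card (T (1 - s)).ker ^ (p ^ i * (p - 1)) := by
  have hn : 1 < p ^ (i + 1) := Nat.one_lt_pow (Nat.succ_ne_zero i) hp.out.one_lt
  obtain ⟨pidx, pfin⟩ := pow_index B hp.out.ne_zero
  have hTp : T ((p : ℕ) : AddMonoid.End (Additive B)) = (powMonoidHom p : B →* B) := by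
    ext x
    rfl
  have hPp : aeval s (PS (cp (p ^ (i + 1)))) = ((p : ℕ) : AddMonoid.End (Additive B)) := by
    obtain ⟨Q, hQ⟩ := PS_dvd p i
    have h2 := congrArg (aeval s) hQ
    rw [map_sub, map_mul, map_sum] at h2
    simp only [map_pow, aeval_X, map_natCast] at h2
    rw [hs, zero_mul] at h2
    exact sub_eq_zero.1 h2
  have hgp : Good ((p : ℕ) : AddMonoid.End (Additive B)) := by
    rw [Good, hTp]
    refine ⟨?_, pfin⟩
    rw [pidx]
    have : 0 < Nat.card (powMonoidHom p : B →* B).ker := Nat.card_pos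
    have := hp.out.pos
    positivity
  have hdiv : ∃ u : ℤ[X], PS (cp (p ^ (i + 1))) = (1 - X) * u := by
    have h1m : 1 ∈ cp (p ^ (i + 1)) := by
      rw [cp, Finset.mem_filter, Finset.mem_range]
      exact ⟨hn, Nat.coprime_one_right _⟩
    refine ⟨∏ j ∈ (cp (p ^ (i + 1))).erase 1, (1 - X ^ j), ?_⟩
    rw [PS, ← Finset.mul_prod_erase _ _ h1m, pow_one]
  obtain ⟨u, hu⟩ := hdiv
  have hg : Good (1 - s) := by
    apply good_of_dvd (r := ((p : ℕ) : AddMonoid.End (Additive B))) (u := aeval s u)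
    · rw [← hPp, hu, map_mul]
      simp
    · rw [← hPp, hu, mul_comm, map_mul]
      simp
    · exact hgp
  obtain ⟨_, k2⟩ := ind h1 s hn hsn hg (cp (p ^ (i + 1))) fun j hj => by
    rw [cp, Finset.mem_filter] at hj
    exact hj.2.symm
  refine ⟨hg.1, hg.2, ?_⟩
  rw [hPp, hTp, pidx, card_cp, Nat.totient_prime_pow_succ hp.out] at k2
  have hpos : 0 < Nat.card (powMonoidHom p : B →* B).ker := Nat.card_pos
  apply Nat.eq_of_mul_eq_mul_right hpos
  rw [← k2]
  ring

section restrict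

variable {M : Type} [CommGroup M] (σ : M ≃* M) (J : Subgroup M) (hJ : ∀ x ∈ J, σ x ∈ J)

/-- The restriction of `σ` to `J`. -/
noncomputable def sB : J →* J where
  toFun x := ⟨σ x, hJ x x.2⟩
  map_one' := Subtype.ext (map_one σ)
  map_mul' x y := Subtype.ext (map_mul σ (x : M) (y : M))

/-- The same as an endomorphism of the additive group. -/
noncomputable def sA : AddMonoid.End (Additive J) := MonoidHom.toAdditive (sB σ J hJ)

theorem sB_pow (i : ℕ) (x : J) : ((T ((sA σ J hJ) ^ i) x : J) : M) = (σ ^ i : MulAut M) x := by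
  induction i generalizing x with
  | zero => rfl
  | succ i ih =>
    rw [pow_succ, T_mul, MonoidHom.comp_apply, ih, pow_succ, MulAut.mul_apply]
    rfl

theorem sB_sum (n m : ℕ) (x : J) :
    ((T (∑ j ∈ Finset.range n, (sA σ J hJ) ^ (j * m)) x : J) : M) =
      ∏ j ∈ Finset.range n, (σ ^ (j * m) : MulAut M) x := by
  induction n with
  | zero => rfl
  | succ n ih =>
    rw [Finset.sum_range_succ, Finset.prod_range_succ, ← ih, ← sB_pow σ J hJ]
    rfl

end restrict

theorem t : Pool.Agent.Helper51.SDL.S_HQC := by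
  intro p hp i M _ _ σ J hJ hσ hΦ
  have hfin : Module.Finite ℤ (Additive M) := by
    rw [Module.Finite.iff_addGroup_fg]
    infer_instance
  have := fin_sub J
  have hsn : (sA σ J hJ) ^ p ^ (i + 1) = 1 := by
    ext x
    exact (sB_pow σ J hJ (p ^ (i + 1)) x).trans (hσ _ (Additive.toMul x).2)
  have hs : ∑ j ∈ Finset.range p, (sA σ J hJ) ^ (j * p ^ i) = 0 := by
    ext x
    exact (sB_sum σ J hJ p (p ^ i) x).trans (hΦ _ (Additive.toMul x).2)
  obtain ⟨b1, b2, b3⟩ := quo h_idx (sA σ J hJ) i hsn hs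
  have hT : ∀ x : J, ((T (1 - (sA σ J hJ)) x : J) : M) = dfG σ x := fun x => rfl
  have f1 : (J.map (dfG σ)).relIndex J = (T (1 - (sA σ J hJ))).range.index := by
    show ((J.map (dfG σ)).subgroupOf J).index = _
    congr 1
    ext x
    rw [Subgroup.mem_subgroupOf]
    constructor
    · rintro ⟨y, hy, hyx⟩
      exact ⟨⟨y, hy⟩, Subtype.ext hyx⟩
    · rintro ⟨y, hy⟩
      exact ⟨(y : M), y.2, congrArg Subtype.val hy⟩
  let E : (J ⊓ (dfG σ).ker : Subgroup M) ≃ (T (1 - (sA σ J hJ))).ker :=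
    { toFun := fun x => ⟨⟨(x : M), x.2.1⟩, Subtype.ext ((hT ⟨(x : M), x.2.1⟩).trans x.2.2)⟩
      invFun := fun x => ⟨((x : J) : M), (x : J).2,
        (hT (x : J)).symm.trans (congrArg Subtype.val x.2)⟩
      left_inv := fun x => rfl
      right_inv := fun x => rfl }
  have f2 : Nat.card (J ⊓ (dfG σ).ker : Subgroup M) = Nat.card (T (1 - (sA σ J hJ))).ker :=
    Nat.card_congr E
  rw [f1, f2]
  exact ⟨b1, Finite.of_equiv _ E.symm, b3⟩

end Pool.Agent.Helper23.SDL.HQC
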